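import Mathlib

set_option autoImplicit false

/-!
Numbers composed of given primes: a lower bound for their number and the pigeonhole principle.
-/

namespace Pool.Agent.H951R3.U

open Finset Nat

lemma smooth_card (P : Finset ℕ) (hP : ∀ p ∈ P, p.Prime) {Y : ℝ} (hY1 : 1 < Y)
    (hPY : ∀ p ∈ P, (p : ℝ) ≤ Y) {L : ℝ} (hL : 0 ≤ L) :
    ∃ S : Finset ℕ, (∀ n ∈ S, n ≠ 0 ∧ n.primeFactors ⊆ P ∧ (n : ℝ) ≤ Real.exp L) ∧
      (L / Real.log Y) ^ P.card / (P.card)! ≤ (S.card : ℝ) := by
  classical
  have hlY : 0 < Real.log Y := Real.log_pos hY1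
  set u := ⌊L / Real.log Y⌋₊ with hu
  have h1P : 1 ∉ P := fun h => Nat.not_prime_one (hP 1 h)
  set Φ : (ℕ →₀ ℕ) → ℕ := fun f => (f.erase 1).prod (· ^ ·) with hΦ
  have hmem : ∀ f ∈ (insert 1 P).finsuppAntidiag u,
      (∀ p ∈ (f.erase 1).support, p ∈ P) ∧ f 1 + ∑ p ∈ P, f p = u := by
    intro f hf
    rw [Finset.mem_finsuppAntidiag] at hf
    obtain ⟨h1, h2⟩ := hf
    rw [Finset.sum_insert h1P] at h1
    refine ⟨fun p hp => ?_, h1⟩
    rw [Finsupp.support_erase, Finset.mem_erase] at hp
    have := h2 hp.2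
    rw [Finset.mem_insert] at this
    exact this.resolve_left hp.1
  have hfac : ∀ f ∈ (insert 1 P).finsuppAntidiag u, (Φ f).factorization = f.erase 1 := by
    intro f hf
    exact Nat.prod_pow_factorization_eq_self fun p hp => hP p ((hmem f hf).1 p hp)
  refine ⟨((insert 1 P).finsuppAntidiag u).image Φ, ?_, ?_⟩
  · intro n hn
    obtain ⟨f, hf, rfl⟩ := Finset.mem_image.mp hn
    obtain ⟨h1, h2⟩ := hmem f hf
    have hpr : ∀ p ∈ (f.erase 1).support, p.Prime := fun p hp => hP p (h1 p hp)
    refine ⟨?_, ?_, ?_⟩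
    · exact Finset.prod_ne_zero_iff.mpr fun p hp => pow_ne_zero _ (hpr p hp).ne_zero
    · rw [← Nat.support_factorization, hfac f hf]
      exact h1
    · have h3 : ((Φ f : ℕ) : ℝ) ≤ Y ^ u := by
        have h4 : ((Φ f : ℕ) : ℝ) = ∏ p ∈ (f.erase 1).support, (p : ℝ) ^ (f.erase 1 p) := by
          rw [hΦ]
          simp only [Finsupp.prod]
          push_cast
          rfl
        rw [h4]
        have h5 : ∏ p ∈ (f.erase 1).support, (p : ℝ) ^ (f.erase 1 p) ≤
            ∏ p ∈ (f.erase 1).support, Y ^ (f.erase 1 p) :=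
          Finset.prod_le_prod (fun p _ => by positivity) fun p hp =>
            pow_le_pow_left₀ (by positivity) (hPY p (h1 p hp)) _
        refine h5.trans ?_
        rw [Finset.prod_pow_eq_pow_sum]
        refine pow_le_pow_right₀ hY1.le ?_
        have h6 : ∑ p ∈ (f.erase 1).support, (f.erase 1) p ≤ ∑ p ∈ P, f p := by
          calc ∑ p ∈ (f.erase 1).support, (f.erase 1) p
              = ∑ p ∈ (f.erase 1).support, f p := by
                refine Finset.sum_congr rfl fun p hp => ?_
                rw [Finsupp.support_erase, Finset.mem_erase] at hp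
                rw [Finsupp.erase_ne hp.1]
            _ ≤ ∑ p ∈ P, f p := Finset.sum_le_sum_of_subset h1
        omega
      refine h3.trans ?_
      have h7 : (u : ℝ) * Real.log Y ≤ L := by
        have := Nat.floor_le (show 0 ≤ L / Real.log Y by positivity)
        rwa [le_div_iff₀ hlY] at this
      have hY0 : 0 < Y := by linarith
      rw [← Real.exp_log (show 0 < Y ^ u by positivity), Real.log_pow]
      exact Real.exp_le_exp.mpr h7
  · have hinj : Set.InjOn Φ ((insert 1 P).finsuppAntidiag u : Set (ℕ →₀ ℕ)) := by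
      intro f hf f' hf' h
      have h1 : f.erase 1 = f'.erase 1 := by
        rw [← hfac f hf, ← hfac f' hf', h]
      have h2 : ∀ p, p ≠ 1 → f p = f' p := by
        intro p hp
        have := DFunLike.congr_fun h1 p
        rwa [Finsupp.erase_ne hp, Finsupp.erase_ne hp] at this
      have h3 : ∑ p ∈ P, f p = ∑ p ∈ P, f' p :=
        Finset.sum_congr rfl fun p hp => h2 p fun h => h1P (h ▸ hp)
      have h4 := (hmem f hf).2
      have h5 := (hmem f' hf').2
      ext p
      by_cases hp : p = 1
      · subst hp; omega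
      · exact h2 p hp
    rw [Finset.card_image_of_injOn hinj, Finset.card_finsuppAntidiag_nat_eq_choose,
      Finset.card_insert_of_notMem h1P]
    have h6 : P.card + 1 + u - 1 = P.card + u := by omega
    rw [h6, show (P.card + u).choose u = (P.card + u).choose P.card by
      rw [Nat.choose_symm_add]]
    have h7 := Nat.pow_le_choose (α := ℝ) P.card (P.card + u)
    refine le_trans ?_ h7
    have h8 : P.card + u + 1 - P.card = u + 1 := by omega
    rw [h8]
    have h9 : L / Real.log Y ≤ ((u + 1 : ℕ) : ℝ) := by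
      push_cast
      exact (Nat.lt_floor_add_one _).le
    have h10 : (0 : ℝ) < (P.card)! := by exact_mod_cast Nat.factorial_pos _
    refine div_le_div_of_nonneg_right ?_ h10.le
    exact pow_le_pow_left₀ (by positivity) h9 _

lemma exists_class (S : Finset ℕ) (D t : ℕ) (h : 2 ^ t * D < S.card) :
    ∃ A ⊆ S, D < A.card ∧ ∀ a ∈ A, ∀ b ∈ A, a % 2 ^ t = b % 2 ^ t := by
  classical
  have hmaps : ∀ a ∈ S, a % 2 ^ t ∈ Finset.range (2 ^ t) := fun a _ =>
    Finset.mem_range.mpr (Nat.mod_lt _ (by positivity))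
  obtain ⟨y, _, hy⟩ := Finset.exists_lt_card_fiber_of_mul_lt_card_of_maps_to hmaps
    (by rwa [Finset.card_range])
  refine ⟨_, Finset.filter_subset _ _, hy, fun a ha b hb => ?_⟩
  rw [Finset.mem_filter] at ha hb
  rw [ha.2, hb.2]

/-- `log m! ≤ m log m - m + log m + 1` -/
lemma log_factorial_le (m : ℕ) (hm : 1 ≤ m) :
    Real.log (m ! : ℝ) ≤ m * Real.log m - m + Real.log m + 1 := by
  induction m, hm using Nat.le_induction with
  | base => simp
  | succ n hn ih =>
    have hn0 : (0 : ℝ) < n := by exact_mod_cast (by omega : 0 < n)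
    rw [Nat.factorial_succ]
    push_cast
    have hf : ((n ! : ℕ) : ℝ) ≠ 0 := by exact_mod_cast Nat.factorial_ne_zero n
    rw [Real.log_mul (by positivity) hf]
    have h1 : 1 / ((n : ℝ) + 1) ≤ Real.log (n + 1) - Real.log n := by
      rw [← Real.log_div (by positivity) hn0.ne']
      have := Real.one_sub_inv_le_log_of_pos (x := ((n : ℝ) + 1) / n) (by positivity)
      refine le_trans (le_of_eq ?_) this
      field_simp
      ring
    have h2 : 1 ≤ ((n : ℝ) + 1) * (Real.log (n + 1) - Real.log n) := by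
      rw [div_le_iff₀ (by positivity)] at h1
      linarith
    nlinarith

end Pool.Agent.H951R3.U
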