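import Mathlib

set_option autoImplicit false

/-!
A dominant map from `(ℙ¹)^k` to the hyperplane `Z_1 + … + Z_{k+2} = 0`.
-/

namespace Pool.Agent.H951R3.U

open Finset

/-- the coordinates of the point attached to `k` triples `a i + b i = c i` -/
def zc {R : Type*} [CommRing R] (k : ℕ) (a b c : ℕ → R) (j : ℕ) : R :=
  if j < k then (∏ i ∈ range j, a i) * b j * ∏ i ∈ Ico (j + 1) k, c i
  else if j = k then ∏ i ∈ range k, a i else - ∏ i ∈ range k, c i

lemma zc_sum {R : Type*} [CommRing R] (k : ℕ) (a b c : ℕ → R) (h : ∀ i, a i + b i = c i) :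
    ∑ j ∈ range (k + 2), zc k a b c j = 0 := by
  have h1 : ∀ n, n ≤ k → ∑ j ∈ range n, zc k a b c j =
      (∏ i ∈ Ico 0 k, c i) - (∏ i ∈ range n, a i) * ∏ i ∈ Ico n k, c i := by
    intro n hn
    induction n with
    | zero => simp
    | succ n ih =>
      rw [sum_range_succ, ih (by omega)]
      have h2 : zc k a b c n = (∏ i ∈ range n, a i) * b n * ∏ i ∈ Ico (n + 1) k, c i := by
        unfold zc; rw [if_pos (by omega)]
      have h3 : ∏ i ∈ Ico n k, c i = c n * ∏ i ∈ Ico (n + 1) k, c i :=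
        Finset.prod_eq_prod_Ico_succ_bot (by omega) c
      rw [h2, h3, prod_range_succ, ← h n]
      ring
  rw [sum_range_succ, sum_range_succ, h1 k le_rfl]
  have h4 : zc k a b c k = ∏ i ∈ range k, a i := by
    unfold zc; rw [if_neg (by omega), if_pos rfl]
  have h5 : zc k a b c (k + 1) = - ∏ i ∈ range k, c i := by
    unfold zc; rw [if_neg (by omega), if_neg (by omega)]
  rw [h4, h5, Ico_self, prod_empty, ← range_eq_Ico]
  ring

lemma zc_scale {R : Type*} [CommRing R] (k : ℕ) (l a b c : ℕ → R) (j : ℕ) :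
    zc k (fun i => l i * a i) (fun i => l i * b i) (fun i => l i * c i) j =
      (∏ i ∈ range k, l i) * zc k a b c j := by
  unfold zc
  split_ifs with h1 h2
  · rw [prod_mul_distrib, prod_mul_distrib]
    have h3 : ∏ i ∈ range k, l i = (∏ i ∈ range j, l i) * (l j * ∏ i ∈ Ico (j + 1) k, l i) := by
      rw [← Finset.prod_eq_prod_Ico_succ_bot h1 l, Finset.prod_range_mul_prod_Ico l h1.le]
    rw [h3]
    ring
  · rw [prod_mul_distrib]
  · rw [prod_mul_distrib]; ring

lemma zc_map {R R' : Type*} [CommRing R] [CommRing R'] (f : R →+* R') (k : ℕ) (a b c : ℕ → R)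
    (j : ℕ) :
    f (zc k a b c j) = zc k (fun i => f (a i)) (fun i => f (b i)) (fun i => f (c i)) j := by
  unfold zc
  split_ifs with h1 h2
  · rw [map_mul, map_mul, map_prod, map_prod]
  · rw [map_prod]
  · rw [map_neg, map_prod]

lemma zc_congr {R : Type*} [CommRing R] (k : ℕ) {a b c a' b' c' : ℕ → R}
    (ha : ∀ i < k, a i = a' i) (hb : ∀ i < k, b i = b' i) (hc : ∀ i < k, c i = c' i) (j : ℕ) :
    zc k a b c j = zc k a' b' c' j := by
  unfold zc
  split_ifs with h1 h2
  · rw [hb j h1]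
    congr 1
    · congr 1
      exact prod_congr rfl fun i hi => ha i (by have := mem_range.mp hi; omega)
    · exact prod_congr rfl fun i hi => hc i (by have := mem_Ico.mp hi; omega)
  · exact prod_congr rfl fun i hi => ha i (mem_range.mp hi)
  · congr 1
    exact prod_congr rfl fun i hi => hc i (mem_range.mp hi)

lemma eval_scale {R : Type*} [CommRing R] {n d : ℕ} (F : MvPolynomial (Fin n) R)
    (hF : F.IsHomogeneous d) (r : R) (x : Fin n → R) :
    MvPolynomial.eval (fun i => r * x i) F = r ^ d * MvPolynomial.eval x F := by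
  classical
  rw [MvPolynomial.eval_eq', MvPolynomial.eval_eq', mul_sum]
  refine sum_congr rfl fun m hm => ?_
  have hdeg : ∑ i, m i = d := by
    have h1 := hF (MvPolynomial.mem_support_iff.mp hm)
    rw [← h1]
    simp [Finsupp.weight, Finsupp.linearCombination, Finsupp.sum_fintype]
  have h2 : ∏ i, (r * x i) ^ m i = r ^ d * ∏ i, x i ^ m i := by
    rw [← hdeg, ← prod_pow_eq_pow_sum, ← prod_mul_distrib]
    exact prod_congr rfl fun i _ => mul_pow _ _ _
  rw [h2]
  ring

/-- stick breaking -/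
lemma stick (k : ℕ) (Z M : ℕ → ℂ) (hM : ∀ j < k, M j = Z j + M (j + 1)) (hMk : M k = Z k)
    (hlast : Z (k + 1) = - M 0) (hne : ∀ j ≤ k, M j ≠ 0) (j : ℕ) (hj : j < k + 2) :
    zc k (fun i => 1 - Z i / M i) (fun i => Z i / M i) (fun _ => 1) j = (M 0)⁻¹ * Z j := by
  have h1 : ∀ n, n ≤ k → ∏ i ∈ range n, (1 - Z i / M i) = M n / M 0 := by
    intro n hn
    induction n with
    | zero => rw [range_zero, prod_empty, div_self (hne 0 (by omega))]
    | succ n ih =>
      rw [prod_range_succ, ih (by omega)]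
      have e1 := hne 0 (by omega)
      have e2 := hne n (by omega)
      have e3 := hM n (by omega)
      have e4 : M (n + 1) = M n - Z n := by rw [e3]; ring
      rw [e4]
      field_simp
  have h0 := hne 0 (by omega)
  unfold zc
  split_ifs with h2 h3
  · rw [h1 j h2.le, prod_const_one, mul_one]
    have := hne j h2.le
    field_simp
  · subst h3
    rw [h1 j le_rfl, hMk]
    ring
  · have h4 : j = k + 1 := by omega
    rw [h4, prod_const_one, hlast]
    field_simp

open Polynomial in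
lemma exists_stick {k : ℕ} (F : MvPolynomial (Fin (k + 2)) ℂ) {d : ℕ} (hF : F.IsHomogeneous d)
    (hF0 : ∃ z : Fin (k + 2) → ℂ, ∑ i, z i = 0 ∧ MvPolynomial.eval z F ≠ 0) :
    ∃ x : ℕ → ℂ, MvPolynomial.eval
      (fun j : Fin (k + 2) => zc k (fun i => 1 - x i) x (fun _ => 1) j) F ≠ 0 := by
  classical
  obtain ⟨z, hz, hFz⟩ := hF0
  -- extend to ℕ
  set z1 : ℕ → ℂ := fun j => if h : j < k + 2 then z ⟨j, h⟩ else 0 with hz1
  set z0 : ℕ → ℂ := fun j => if j ≤ k then 1 else -(k + 1) with hz0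
  have hz1sum : ∑ j ∈ range (k + 2), z1 j = 0 := by
    rw [← hz, ← Fin.sum_univ_eq_sum_range]
    refine sum_congr rfl fun j _ => ?_
    simp [hz1]
  have hz0sum : ∑ j ∈ range (k + 2), z0 j = 0 := by
    rw [sum_range_succ, sum_congr rfl (g := fun _ => (1 : ℂ))
      (fun j hj => by rw [hz0]; simp only; rw [if_pos (by have := mem_range.mp hj; omega)])]
    simp [hz0]
  set lp : ℕ → ℂ[X] := fun j => C (z0 j - z1 j) * X + C (z1 j) with hlp
  set pF : ℂ[X] := MvPolynomial.aeval (fun j : Fin (k + 2) => lp j) F with hpF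
  have hevF : ∀ s : ℂ, pF.eval s =
      MvPolynomial.eval (fun j : Fin (k + 2) => (lp j).eval s) F := by
    intro s
    have h : pF.eval s = (Polynomial.evalRingHom s) pF := rfl
    rw [h, hpF, MvPolynomial.aeval_def, MvPolynomial.hom_eval₂, ← MvPolynomial.eval₂_id]
    congr 1
    ext; simp
  have hlp0 : ∀ j, (lp j).eval 0 = z1 j := by intro j; simp [hlp]
  have hlp1 : ∀ j, (lp j).eval 1 = z0 j := by intro j; simp [hlp]
  have hpF0 : pF ≠ 0 := by
    intro h0
    apply hFz
    have h1 := hevF 0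
    rw [h0, Polynomial.eval_zero] at h1
    rw [h1]
    congr 1
    congr 1
    funext j
    rw [hlp0]
    simp [hz1]
  set pM : ℕ → ℂ[X] := fun j => ∑ i ∈ Ico j (k + 1), lp i with hpM
  have hpM0 : ∀ j ∈ range (k + 1), pM j ≠ 0 := by
    intro j hj h0
    have hj' := mem_range.mp hj
    have h1 : (pM j).eval 1 = ((k + 1 - j : ℕ) : ℂ) := by
      rw [hpM]
      simp only
      rw [Polynomial.eval_finsetSum, sum_congr rfl (g := fun _ => (1 : ℂ))]
      · simp
      · intro i hi
        rw [hlp1, hz0]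
        simp only
        rw [if_pos (by have := mem_Ico.mp hi; omega)]
    rw [h0, Polynomial.eval_zero] at h1
    have h2 : ((k + 1 - j : ℕ) : ℂ) ≠ 0 := by
      rw [Nat.cast_ne_zero]
      omega
    exact h2 h1.symm
  have hprod : pF * ∏ j ∈ range (k + 1), pM j ≠ 0 :=
    mul_ne_zero hpF0 (prod_ne_zero_iff.mpr hpM0)
  have hs : ∃ s : ℂ, (pF * ∏ j ∈ range (k + 1), pM j).eval s ≠ 0 := by
    by_contra hcon
    push Not at hcon
    exact hprod (Polynomial.funext fun s => by simpa using hcon s)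
  obtain ⟨s, hs⟩ := hs
  rw [Polynomial.eval_mul, Polynomial.eval_prod] at hs
  have hsF := left_ne_zero_of_mul hs
  have hsM : ∀ j ≤ k, (pM j).eval s ≠ 0 := fun j hj =>
    prod_ne_zero_iff.mp (right_ne_zero_of_mul hs) j (mem_range.mpr (by omega))
  set Z : ℕ → ℂ := fun j => (lp j).eval s with hZ
  set M : ℕ → ℂ := fun j => (pM j).eval s with hM
  have hMZ : ∀ j, M j = ∑ i ∈ Ico j (k + 1), Z i := by
    intro j
    rw [hM, hpM]
    simp only
    rw [Polynomial.eval_finsetSum]
  have hZsum : ∑ j ∈ range (k + 2), Z j = 0 := by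
    have h1 : ∀ j, Z j = (z0 j - z1 j) * s + z1 j := by
      intro j; simp [hZ, hlp]
    rw [sum_congr rfl fun j _ => h1 j, sum_add_distrib, ← sum_mul, sum_sub_distrib, hz0sum, hz1sum]
    ring
  refine ⟨fun i => Z i / M i, ?_⟩
  have hst : ∀ j : Fin (k + 2), zc k (fun i => 1 - Z i / M i) (fun i => Z i / M i)
      (fun _ => 1) j = (M 0)⁻¹ * Z j := by
    intro j
    refine stick k Z M ?_ ?_ ?_ hsM j j.2
    · intro i hi
      rw [hMZ, hMZ, Finset.sum_eq_sum_Ico_succ_bot (by omega)]
    · rw [hMZ, Finset.sum_eq_sum_Ico_succ_bot (by omega), Ico_self, sum_empty, add_zero]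
    · rw [sum_range_succ, range_eq_Ico, ← hMZ] at hZsum
      linear_combination hZsum
  have hfun : (fun j : Fin (k + 2) => zc k (fun i => 1 - Z i / M i) (fun i => Z i / M i)
      (fun _ => 1) (j : ℕ)) = fun j : Fin (k + 2) => (M 0)⁻¹ * Z j := funext hst
  rw [hfun, eval_scale F hF]
  refine mul_ne_zero (pow_ne_zero _ (inv_ne_zero (hsM 0 (by omega)))) ?_
  rw [hevF] at hsF
  exact hsF

/-- the polynomial in `k` variables obtained by pulling back a form -/
lemma exists_grid {k : ℕ} (F : MvPolynomial (Fin (k + 2)) ℂ) {d : ℕ} (hF : F.IsHomogeneous d)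
    (hF0 : ∃ z : Fin (k + 2) → ℂ, ∑ i, z i = 0 ∧ MvPolynomial.eval z F ≠ 0) :
    ∃ D : ℕ, ∀ T : Finset ℂ, D ≤ T.card → ∃ x : ℕ → ℂ, (∀ i < k, x i ∈ T) ∧
      MvPolynomial.eval (fun j : Fin (k + 2) => zc k (fun i => 1 - x i) x (fun _ => 1) j) F ≠ 0 := by
  classical
  obtain ⟨x0, hx0⟩ := exists_stick F hF hF0
  -- variables
  set V : ℕ → MvPolynomial (Fin k) ℂ := fun i => if h : i < k then MvPolynomial.X ⟨i, h⟩ else 0
    with hV
  set G : MvPolynomial (Fin k) ℂ := MvPolynomial.aeval
    (fun j : Fin (k + 2) => zc k (fun i => 1 - V i) V (fun _ => 1) j) F with hG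
  have hev : ∀ x : ℕ → ℂ, MvPolynomial.eval (fun i : Fin k => x i) G =
      MvPolynomial.eval (fun j : Fin (k + 2) => zc k (fun i => 1 - x i) x (fun _ => 1) j) F := by
    intro x
    rw [hG, MvPolynomial.aeval_def, MvPolynomial.hom_eval₂, ← MvPolynomial.eval₂_id]
    have e1 : (MvPolynomial.eval (fun i : Fin k => x i)).comp
        (algebraMap ℂ (MvPolynomial (Fin k) ℂ)) = RingHom.id ℂ := by
      ext; simp
    rw [e1]
    congr 1
    funext j
    rw [zc_map]
    refine zc_congr k ?_ ?_ ?_ j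
    · intro i hi
      simp [hV, hi]
    · intro i hi
      simp [hV, hi]
    · intro i hi
      simp
  have hG0 : G ≠ 0 := by
    intro h0
    apply hx0
    rw [← hev x0, h0, map_zero]
  refine ⟨(univ.sup fun i : Fin k => G.degreeOf i) + 1, fun T hT => ?_⟩
  by_contra hcon
  push Not at hcon
  apply hG0
  refine MvPolynomial.eq_zero_of_eval_zero_at_prod_finset G (fun _ => T) (fun i => ?_)
    fun x hx => ?_
  · have : G.degreeOf i ≤ univ.sup fun i : Fin k => G.degreeOf i :=
      Finset.le_sup (f := fun i : Fin k => G.degreeOf i) (mem_univ i)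
    omega
  · set x' : ℕ → ℂ := fun i => if h : i < k then x ⟨i, h⟩ else 0 with hx'
    have e1 : (fun i : Fin k => x' i) = x := by
      funext i
      simp [hx']
    have e2 := hcon x' (fun i hi => by
      rw [hx']
      simp only
      rw [dif_pos hi]
      exact hx _)
    rw [← hev x', e1] at e2
    exact e2

end Pool.Agent.H951R3.U
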