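import Pool.Agent.H951R3.U.U1
import Pool.Agent.H951R3.U.U2

set_option autoImplicit false

/-!
Points with small radical outside a given hypersurface.
-/

namespace Pool.Agent.H951R3.U

open Finset Nat

/-- `h(P)` for the rational point `P` with integer homogeneous coordinates `z` -/
noncomputable def ht {n : ℕ} (z : Fin n → ℤ) : ℝ :=
  Real.log ((Finset.univ.sup fun i => (z i).natAbs : ℕ) : ℝ) -
    Real.log ((Finset.univ.gcd fun i => (z i).natAbs : ℕ) : ℝ)

open Classical in
/-- `rad(P)`: the sum of `log p` over the primes `p` at which the `ord_p (z i)` are not all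
equal -/
noncomputable def radz {n : ℕ} (z : Fin n → ℤ) : ℝ :=
  ∑ p ∈ (∏ i, (z i).natAbs).primeFactors with (∃ i j, padicValInt p (z i) ≠ padicValInt p (z j)),
    Real.log p

lemma main_alg {k : ℕ} (F : MvPolynomial (Fin (k + 2)) ℂ) {d : ℕ} (hF : F.IsHomogeneous d)
    (hF0 : ∃ z : Fin (k + 2) → ℂ, ∑ i, z i = 0 ∧ MvPolynomial.eval z F ≠ 0) :
    ∃ D : ℕ, ∀ (y t : ℕ) (L : ℝ) (A : Finset ℕ), 2 ≤ y →
      (∀ n ∈ A, n ≠ 0 ∧ n.primeFactors ⊆ (primesLE y).erase 2 ∧ (n : ℝ) ≤ Real.exp L) →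
      (∀ a ∈ A, ∀ b ∈ A, a % 2 ^ t = b % 2 ^ t) → D < A.card →
      ∃ z : Fin (k + 2) → ℤ, (∀ i, z i ≠ 0) ∧ ∑ i, z i = 0 ∧
        MvPolynomial.eval (fun i => (z i : ℂ)) F ≠ 0 ∧ ht z ≤ k * L ∧
        radz z + k * (t * Real.log 2) ≤ ht z + ∑ p ∈ primesLE y, Real.log p := by
  classical
  obtain ⟨D, hD⟩ := exists_grid F hF hF0
  refine ⟨D, fun y t L A hy hA hmod hcard => ?_⟩
  have hne : A.Nonempty := card_pos.mp (by omega)
  set s0 := A.min' hne with hs0
  have hs0A : s0 ∈ A := A.min'_mem hne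
  have hs00 : s0 ≠ 0 := (hA s0 hs0A).1
  have hs0C : (s0 : ℂ) ≠ 0 := by exact_mod_cast hs00
  set T : Finset ℂ := (A.erase s0).image (fun c : ℕ => (s0 : ℂ) / c) with hT
  have hTcard : D ≤ T.card := by
    rw [hT, Finset.card_image_of_injOn, card_erase_of_mem hs0A]
    · omega
    · intro c hc c' hc' h
      have e1 : (c : ℂ) ≠ 0 := by exact_mod_cast (hA c (mem_of_mem_erase hc)).1
      have e2 : (c' : ℂ) ≠ 0 := by exact_mod_cast (hA c' (mem_of_mem_erase hc')).1
      simp only at h
      rw [div_eq_div_iff e1 e2] at h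
      have := mul_left_cancel₀ hs0C h
      exact_mod_cast this.symm
  obtain ⟨x, hxT, hxF⟩ := hD T hTcard
  have hch : ∀ i, ∃ c : ℕ, i < k → (c ∈ A.erase s0 ∧ (s0 : ℂ) / c = x i) := by
    intro i
    by_cases hi : i < k
    · obtain ⟨c, hc, hc'⟩ := mem_image.mp (hxT i hi)
      exact ⟨c, fun _ => ⟨hc, hc'⟩⟩
    · exact ⟨0, fun h => absurd h hi⟩
  choose c hc using hch
  have hcA : ∀ i < k, c i ∈ A := fun i hi => mem_of_mem_erase (hc i hi).1
  have hclt : ∀ i < k, s0 < c i := fun i hi =>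
    lt_of_le_of_ne (A.min'_le _ (hcA i hi)) (ne_of_mem_erase (hc i hi).1).symm
  set zN : ℕ → ℤ := zc k (fun i => (c i : ℤ) - s0) (fun _ => (s0 : ℤ)) (fun i => (c i : ℤ)) with hzN
  set z : Fin (k + 2) → ℤ := fun j => zN j with hz
  -- the coordinates
  have hzlt : ∀ j < k, zN j = (∏ i ∈ range j, ((c i : ℤ) - s0)) * s0 * ∏ i ∈ Ico (j + 1) k, (c i : ℤ) := by
    intro j hj
    rw [hzN]; unfold zc; rw [if_pos hj]
  have hzk : zN k = ∏ i ∈ range k, ((c i : ℤ) - s0) := by
    rw [hzN]; unfold zc; rw [if_neg (by omega), if_pos rfl]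
  have hzk1 : zN (k + 1) = - ∏ i ∈ range k, (c i : ℤ) := by
    rw [hzN]; unfold zc; rw [if_neg (by omega), if_neg (by omega)]
  have hcpos : ∀ i < k, (0 : ℤ) < c i := fun i hi => by
    have := hclt i hi
    exact_mod_cast (by omega : 0 < c i)
  have hapos : ∀ i < k, (0 : ℤ) < (c i : ℤ) - s0 := fun i hi => by
    have : (s0 : ℤ) < c i := by exact_mod_cast hclt i hi
    linarith
  have hs0pos : (0 : ℤ) < s0 := by exact_mod_cast Nat.pos_of_ne_zero hs00
  -- nonvanishing
  have hz0 : ∀ i, z i ≠ 0 := by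
    intro i
    have hi : (i : ℕ) < k ∨ (i : ℕ) = k ∨ (i : ℕ) = k + 1 := by omega
    rw [hz]
    simp only
    rcases hi with h | h | h
    · rw [hzlt _ h]
      refine mul_ne_zero (mul_ne_zero ?_ hs0pos.ne') ?_
      · exact prod_ne_zero_iff.mpr fun m hm => (hapos m (by have := mem_range.mp hm; omega)).ne'
      · exact prod_ne_zero_iff.mpr fun m hm => (hcpos m (by have := mem_Ico.mp hm; omega)).ne'
    · rw [h, hzk]
      exact prod_ne_zero_iff.mpr fun m hm => (hapos m (mem_range.mp hm)).ne'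
    · rw [h, hzk1]
      exact neg_ne_zero.mpr (prod_ne_zero_iff.mpr fun m hm => (hcpos m (mem_range.mp hm)).ne')
  -- the sum
  have hzsum : ∑ i, z i = 0 := by
    rw [hz, Fin.sum_univ_eq_sum_range zN (k + 2), hzN]
    exact zc_sum k _ _ _ fun i => by ring
  -- the form
  have hFz : MvPolynomial.eval (fun i => (z i : ℂ)) F ≠ 0 := by
    have h1 : (fun i : Fin (k + 2) => (z i : ℂ)) = fun i : Fin (k + 2) =>
        (∏ m ∈ range k, (c m : ℂ)) * zc k (fun i => 1 - x i) x (fun _ => 1) i := by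
      funext j
      have h2 : (z j : ℂ) = (Int.castRingHom ℂ) (zN j) := rfl
      rw [h2, hzN, zc_map, ← zc_scale]
      refine zc_congr k ?_ ?_ ?_ _
      · intro i hi
        have e1 : (c i : ℂ) ≠ 0 := by exact_mod_cast (hA _ (hcA i hi)).1
        rw [← (hc i hi).2]
        simp only [map_sub, map_natCast]
        field_simp
      · intro i hi
        have e1 : (c i : ℂ) ≠ 0 := by exact_mod_cast (hA _ (hcA i hi)).1
        rw [← (hc i hi).2]
        simp only [map_natCast]
        field_simp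
      · intro i hi
        simp
    rw [h1, eval_scale F hF]
    refine mul_ne_zero (pow_ne_zero _ (prod_ne_zero_iff.mpr fun m hm => ?_)) hxF
    exact_mod_cast (hA _ (hcA m (mem_range.mp hm))).1
  -- size
  set Cp : ℕ := ∏ i ∈ range k, c i with hCp
  have hCp0 : Cp ≠ 0 := prod_ne_zero_iff.mpr fun m hm => (hA _ (hcA m (mem_range.mp hm))).1
  have hCpR : (0 : ℝ) < Cp := by exact_mod_cast Nat.pos_of_ne_zero hCp0
  have hlast : (z ⟨k + 1, by omega⟩).natAbs = Cp := by
    have h1 : z ⟨k + 1, by omega⟩ = -((Cp : ℕ) : ℤ) := by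
      rw [hz]
      simp only
      rw [hzk1, hCp]
      push_cast
      rfl
    rw [h1, Int.natAbs_neg, Int.natAbs_natCast]
  have hmid : (z ⟨k, by omega⟩).natAbs = ∏ i ∈ range k, (c i - s0) := by
    have h1 : z ⟨k, by omega⟩ = ((∏ i ∈ range k, (c i - s0) : ℕ) : ℤ) := by
      rw [hz]
      simp only
      rw [hzk]
      push_cast
      refine prod_congr rfl fun i hi => ?_
      rw [Nat.cast_sub (hclt i (mem_range.mp hi)).le]
    rw [h1, Int.natAbs_natCast]
  have hle : ∀ i, (z i).natAbs ≤ Cp := by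
    intro i
    have h0 : |z i| ≤ (Cp : ℤ) := by
      have hi : (i : ℕ) < k ∨ (i : ℕ) = k ∨ (i : ℕ) = k + 1 := by omega
      have hCpZ : (Cp : ℤ) = ∏ i ∈ range k, (c i : ℤ) := by rw [hCp]; push_cast; rfl
      rw [hz, hCpZ]
      simp only
      rcases hi with h | h | h
      · rw [hzlt _ h]
        have e1 : (0 : ℤ) ≤ ∏ m ∈ range (i : ℕ), ((c m : ℤ) - s0) :=
          prod_nonneg fun m hm => (hapos m (by have := mem_range.mp hm; omega)).le
        have e2 : (0 : ℤ) ≤ ∏ m ∈ Ico ((i : ℕ) + 1) k, (c m : ℤ) :=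
          prod_nonneg fun m hm => (hcpos m (by have := mem_Ico.mp hm; omega)).le
        rw [abs_of_nonneg (by positivity)]
        have e3 : ∏ m ∈ range k, (c m : ℤ) = (∏ m ∈ range (i : ℕ), (c m : ℤ)) *
            (c i) * ∏ m ∈ Ico ((i : ℕ) + 1) k, (c m : ℤ) := by
          rw [mul_assoc, ← Finset.prod_eq_prod_Ico_succ_bot h (fun m => (c m : ℤ)),
            Finset.prod_range_mul_prod_Ico (fun m => (c m : ℤ)) h.le]
        rw [e3]
        refine mul_le_mul_of_nonneg_right ?_ e2
        refine mul_le_mul ?_ ?_ hs0pos.le ?_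
        · refine prod_le_prod (fun m hm => (hapos m (by have := mem_range.mp hm; omega)).le)
            fun m hm => by linarith
        · exact_mod_cast (hclt _ h).le
        · exact prod_nonneg fun m hm => (hcpos m (by have := mem_range.mp hm; omega)).le
      · rw [h, hzk, abs_of_nonneg (prod_nonneg fun m hm => (hapos m (mem_range.mp hm)).le)]
        exact prod_le_prod (fun m hm => (hapos m (mem_range.mp hm)).le) fun m hm => by linarith
      · rw [h, hzk1, abs_neg, abs_of_nonneg (prod_nonneg fun m hm => (hcpos m (mem_range.mp hm)).le)]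
    have h1 : (((z i).natAbs : ℕ) : ℤ) ≤ Cp := by rw [Int.natCast_natAbs]; exact h0
    exact_mod_cast h1
  have hsup : (univ.sup fun i => (z i).natAbs) = Cp := by
    refine le_antisymm (Finset.sup_le fun i _ => hle i) ?_
    rw [← hlast]
    exact Finset.le_sup (f := fun i => (z i).natAbs) (mem_univ _)
  set g : ℕ := univ.gcd fun i => (z i).natAbs with hg
  have hgCp : g ∣ Cp := by
    rw [← hlast]
    exact Finset.gcd_dvd (f := fun i => (z i).natAbs) (mem_univ _)
  have hg0 : g ≠ 0 := fun h => hCp0 (by rw [h] at hgCp; exact zero_dvd_iff.mp hgCp)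
  have hgR : (0 : ℝ) < g := by exact_mod_cast Nat.pos_of_ne_zero hg0
  have hht : ht z = Real.log Cp - Real.log g := by
    unfold ht
    rw [hsup]
  have hlogCp : Real.log Cp ≤ k * L := by
    rw [hCp]
    push_cast
    rw [Real.log_prod (fun i hi => by
      exact_mod_cast (hA _ (hcA i (mem_range.mp hi))).1)]
    have h1 : ∀ i ∈ range k, Real.log (c i) ≤ L := by
      intro i hi
      have h2 := (hA _ (hcA i (mem_range.mp hi)))
      have h3 : (0 : ℝ) < c i := by exact_mod_cast Nat.pos_of_ne_zero h2.1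
      exact (Real.log_le_iff_le_exp h3).mpr h2.2.2
    refine (sum_le_sum h1).trans ?_
    rw [sum_const, card_range, nsmul_eq_mul]
  -- primes of `Cp`
  have hpCp : ∀ p : ℕ, p.Prime → p ∣ Cp → p ∈ (primesLE y).erase 2 := by
    intro p hp hpd
    obtain ⟨i, hi, hpi⟩ := (Prime.dvd_finsetProd_iff hp.prime _).mp hpd
    have h2 := hA _ (hcA i (mem_range.mp hi))
    exact h2.2.1 (Nat.mem_primeFactors.mpr ⟨hp, hpi, h2.1⟩)
  -- the differences
  have hr : ∀ i < k, 2 ^ t * ((c i - s0) / 2 ^ t) = c i - s0 := by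
    intro i hi
    refine Nat.mul_div_cancel' ?_
    refine Nat.dvd_of_mod_eq_zero ?_
    exact Nat.sub_mod_eq_zero_of_mod_eq (hmod _ (hcA i hi) _ hs0A)
  set r : ℕ → ℕ := fun i => (c i - s0) / 2 ^ t with hrdef
  set R : ℕ := ∏ i ∈ range k, r i with hR
  have hprodR : ∏ i ∈ range k, (c i - s0) = (2 ^ t) ^ k * R := by
    rw [hR, ← card_range k, ← prod_const, card_range, ← prod_mul_distrib]
    exact prod_congr rfl fun i hi => (hr i (mem_range.mp hi)).symm
  have hprod0 : ∏ i ∈ range k, (c i - s0) ≠ 0 :=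
    prod_ne_zero_iff.mpr fun i hi => by have := hclt i (mem_range.mp hi); omega
  have hR0 : R ≠ 0 := by
    intro h; rw [h, mul_zero] at hprodR; exact hprod0 hprodR
  have hcop : Nat.Coprime g ((2 ^ t) ^ k) := by
    rw [← pow_mul]
    refine Nat.Coprime.pow_right _ ?_
    rw [Nat.coprime_comm, Nat.Prime.coprime_iff_not_dvd Nat.prime_two]
    intro h
    exact (ne_of_mem_erase (hpCp 2 Nat.prime_two (h.trans hgCp))) rfl
  have hgR' : g ∣ R := by
    have h1 : g ∣ (2 ^ t) ^ k * R := by
      rw [← hprodR, ← hmid]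
      exact Finset.gcd_dvd (f := fun i => (z i).natAbs) (mem_univ _)
    exact hcop.dvd_of_dvd_mul_left h1
  obtain ⟨R', hR'⟩ := hgR'
  have hR'0 : R' ≠ 0 := by
    rintro rfl; exact hR0 (by rw [hR', mul_zero])
  have hR'R : (0 : ℝ) < R' := by exact_mod_cast Nat.pos_of_ne_zero hR'0
  -- the radical
  have hrad : radz z ≤ ∑ p ∈ primesLE y, Real.log p + Real.log R' := by
    unfold radz
    set 𝓑 := ((∏ i, (z i).natAbs).primeFactors.filter
      (fun p => ∃ i j, padicValInt p (z i) ≠ padicValInt p (z j))) with h𝓑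
    rw [← sum_filter_add_sum_filter_not 𝓑 (fun p => p ∈ primesLE y)]
    refine add_le_add ?_ ?_
    · refine sum_le_sum_of_subset_of_nonneg (fun p hp => (mem_filter.mp hp).2) fun p hp _ => ?_
      exact Real.log_natCast_nonneg p
    · have hBp : ∀ p ∈ 𝓑.filter (fun p => p ∉ primesLE y), p.Prime := fun p hp =>
        Nat.prime_of_mem_primeFactors (mem_filter.mp (mem_filter.mp hp).1).1
      have hdvd : ∀ p ∈ 𝓑.filter (fun p => p ∉ primesLE y), p ∣ R' := by
        intro p hp
        have hpp := hBp p hp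
        have hpy := (mem_filter.mp hp).2
        have hpd : p ∣ ∏ i, (z i).natAbs :=
          Nat.dvd_of_mem_primeFactors (mem_filter.mp (mem_filter.mp hp).1).1
        obtain ⟨i, _, hpi⟩ := (Prime.dvd_finsetProd_iff hpp.prime _).mp hpd
        have hpZ : Prime (p : ℤ) := Nat.prime_iff_prime_int.mp hpp
        have hpi' : (p : ℤ) ∣ z i := Int.natCast_dvd.mpr hpi
        -- `p` does not divide the `c i` and `s0`
        have hpc : ∀ m < k, ¬ (p : ℤ) ∣ (c m : ℤ) := by
          intro m hm h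
          have h2 := hA _ (hcA m hm)
          have h3 : p ∣ c m := by exact_mod_cast h
          exact hpy (mem_of_mem_erase (h2.2.1 (Nat.mem_primeFactors.mpr ⟨hpp, h3, h2.1⟩)))
        have hps : ¬ (p : ℤ) ∣ (s0 : ℤ) := by
          intro h
          have h2 := hA _ hs0A
          have h3 : p ∣ s0 := by exact_mod_cast h
          exact hpy (mem_of_mem_erase (h2.2.1 (Nat.mem_primeFactors.mpr ⟨hpp, h3, h2.1⟩)))
        have hpa : ∃ m < k, (p : ℤ) ∣ (c m : ℤ) - s0 := by
          have hi : (i : ℕ) < k ∨ (i : ℕ) = k ∨ (i : ℕ) = k + 1 := by omega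
          rw [hz] at hpi'
          simp only at hpi'
          rcases hi with h | h | h
          · rw [hzlt _ h] at hpi'
            rcases hpZ.dvd_or_dvd hpi' with h1 | h1
            · rcases hpZ.dvd_or_dvd h1 with h2 | h2
              · obtain ⟨m, hm, hm'⟩ := (Prime.dvd_finsetProd_iff hpZ _).mp h2
                exact ⟨m, by have := mem_range.mp hm; omega, hm'⟩
              · exact absurd h2 hps
            · obtain ⟨m, hm, hm'⟩ := (Prime.dvd_finsetProd_iff hpZ _).mp h1
              exact absurd hm' (hpc m (by have := mem_Ico.mp hm; omega))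
          · rw [h, hzk] at hpi'
            obtain ⟨m, hm, hm'⟩ := (Prime.dvd_finsetProd_iff hpZ _).mp hpi'
            exact ⟨m, mem_range.mp hm, hm'⟩
          · rw [h, hzk1, dvd_neg] at hpi'
            obtain ⟨m, hm, hm'⟩ := (Prime.dvd_finsetProd_iff hpZ _).mp hpi'
            exact absurd hm' (hpc m (mem_range.mp hm))
        obtain ⟨m, hm, hpm⟩ := hpa
        have hpm' : p ∣ c m - s0 := by
          have : ((c m - s0 : ℕ) : ℤ) = (c m : ℤ) - s0 := Nat.cast_sub (hclt m hm).le
          rw [← this] at hpm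
          exact_mod_cast hpm
        have hp2 : ¬ p ∣ 2 ^ t := by
          intro h
          have h1 := hpp.dvd_of_dvd_pow h
          have h2 : p ≤ 2 := Nat.le_of_dvd (by norm_num) h1
          exact hpy (mem_primesLE.mpr ⟨by omega, hpp⟩)
        rw [← hr m hm] at hpm'
        have hprm : p ∣ r m := (hpp.dvd_mul.mp hpm').resolve_left hp2
        have hpR : p ∣ R := hprm.trans (Finset.dvd_prod_of_mem r (mem_range.mpr hm))
        rw [hR'] at hpR
        refine (hpp.dvd_mul.mp hpR).resolve_left fun h => ?_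
        exact hpy (mem_of_mem_erase (hpCp p hpp (h.trans hgCp)))
      have h1 : ∏ p ∈ 𝓑.filter (fun p => p ∉ primesLE y), p ∣ R' :=
        Finset.prod_primes_dvd _ (fun p hp => (hBp p hp).prime) hdvd
      have h2 : ((∏ p ∈ 𝓑.filter (fun p => p ∉ primesLE y), p : ℕ) : ℝ) ≤ R' := by
        exact_mod_cast Nat.le_of_dvd (Nat.pos_of_ne_zero hR'0) h1
      rw [← Real.log_prod (fun p hp => by exact_mod_cast (hBp p hp).ne_zero)]
      refine Real.log_le_log (prod_pos fun p hp => by exact_mod_cast (hBp p hp).pos) ?_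
      push_cast at h2
      exact h2
  refine ⟨z, hz0, hzsum, hFz, ?_, ?_⟩
  · rw [hht]
    have : 0 ≤ Real.log g := Real.log_natCast_nonneg g
    linarith
  · rw [hht]
    have h1 : Real.log ((∏ i ∈ range k, (c i - s0) : ℕ) : ℝ) ≤ Real.log Cp := by
      refine Real.log_le_log (by exact_mod_cast Nat.pos_of_ne_zero hprod0) ?_
      have : ∏ i ∈ range k, (c i - s0) ≤ Cp := prod_le_prod' fun i _ => Nat.sub_le _ _
      exact_mod_cast this
    rw [hprodR, hR'] at h1
    push_cast at h1
    rw [Real.log_mul (by positivity) (by positivity), Real.log_mul hgR.ne' hR'R.ne', Real.log_pow,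
      Real.log_pow] at h1
    linarith

end Pool.Agent.H951R3.U
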