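import Pool.Agent.H951R3.U.U1
import Pool.Agent.H390R2.Mertens

set_option autoImplicit false

/-!
The choice of parameters.
-/

namespace Pool.Agent.H951R3.U

open Finset Nat Filter Topology Pool.Agent.H390R2

lemma II_eq' {m : ℕ} (hm : 1 ≤ m) :
    II m = (Nat.primeCounting m : ℝ) * Real.log m - ∑ p ∈ primesLE m, Real.log p := by
  unfold II
  rw [← Nat.primesLE_card_eq_primeCounting, ← nsmul_eq_mul, ← Finset.sum_const,
    ← Finset.sum_sub_distrib]
  refine Finset.sum_congr rfl fun p hp => ?_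
  have h1 : (0 : ℝ) < p := by exact_mod_cast (prime_of_mem_primesLE hp).pos
  have h2 : (0 : ℝ) < m := by exact_mod_cast hm
  rw [Real.log_div h2.ne' h1.ne']

lemma ev_sq {a : ℝ} (ha : 0 < a) (b : ℝ) :
    ∀ᶠ m : ℕ in atTop, b * Real.log m ^ 2 ≤ a * m := by
  have h1 := (Real.isLittleO_pow_log_id_atTop (n := 2)).comp_tendsto tendsto_natCast_atTop_atTop
  have h2 := h1.bound (c := a / (|b| + 1)) (by positivity)
  filter_upwards [h2, eventually_ge_atTop 1] with m hm hm1
  simp only [Function.comp_apply, id, Real.norm_eq_abs] at hm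
  have h3 : (0 : ℝ) ≤ m := by positivity
  rw [abs_of_nonneg h3, abs_of_nonneg (by positivity)] at hm
  have h5 : b * Real.log m ^ 2 ≤ (|b| + 1) * Real.log m ^ 2 := by
    have := le_abs_self b
    have h6 : 0 ≤ Real.log m ^ 2 := by positivity
    nlinarith
  calc b * Real.log m ^ 2 ≤ (|b| + 1) * Real.log m ^ 2 := h5
    _ ≤ (|b| + 1) * (a / (|b| + 1) * m) := by gcongr
    _ = a * m := by field_simp

lemma ev_lg (b : ℝ) : ∀ᶠ m : ℕ in atTop, b ≤ Real.log m :=
  (Real.tendsto_log_atTop.comp tendsto_natCast_atTop_atTop).eventually_ge_atTop b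

lemma ev_primes : ∀ᶠ m : ℕ in atTop, (m : ℝ) / (2 * Real.log m) ≤ Nat.primeCounting m := by
  filter_upwards [ev_sq (a := 1 / 100) (by norm_num) 1, ev_lg 1, eventually_ge_atTop 1000]
    with m h1 h2 h3
  have h4 := Chebyshev.pi_ge m
  refine le_trans ?_ h4
  have hm : (1000 : ℝ) ≤ m := by exact_mod_cast h3
  have h5 : Real.log ((m : ℝ) + 1) ≤ Real.log m + 1 := by
    have : (m : ℝ) + 1 ≤ Real.exp 1 * m := by
      have := Real.add_one_le_exp (1 : ℝ)
      nlinarith
    have h6 := Real.log_le_log (by positivity) this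
    rw [Real.log_mul (Real.exp_pos 1).ne' (by positivity), Real.log_exp] at h6
    linarith
  rw [div_le_div_iff₀ (by linarith) (by linarith)]
  have h7 : (0.693 : ℝ) ≤ Real.log 2 := by linarith [Real.log_two_gt_d9]
  have h8 : (m : ℝ) ≤ 2 * (m * Real.log 2 - Real.log (m + 1)) := by nlinarith
  calc (m : ℝ) * Real.log m ≤ 2 * (m * Real.log 2 - Real.log (m + 1)) * Real.log m := by gcongr
    _ = _ := by ring

/-- `x ^ a / log x` is increasing -/
lemma rpow_div_log {a : ℝ} (ha : 1 / 2 ≤ a) {x X : ℝ} (hx : Real.exp 2 ≤ x) (hX : x ≤ X) :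
    x ^ a / Real.log x ≤ X ^ a / Real.log X := by
  have ha0 : 0 < a := by linarith
  have hinv : a⁻¹ ≤ 2 := by
    rw [inv_le_comm₀ ha0 (by norm_num)]
    linarith
  have h1 : Real.exp a⁻¹ ≤ x := (Real.exp_le_exp.mpr hinv).trans hx
  have h2 := Real.log_div_self_rpow_antitoneOn ha0 (Set.mem_Ici.mpr h1)
    (Set.mem_Ici.mpr (h1.trans hX)) hX
  simp only at h2
  have hx0 : 0 < x := lt_of_lt_of_le (Real.exp_pos _) hx
  have hX0 : 0 < X := hx0.trans_le hX
  have hlx : 0 < Real.log x := by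
    apply Real.log_pos
    have : (1 : ℝ) < Real.exp 2 := Real.one_lt_exp_iff.mpr (by norm_num)
    linarith
  have hlX : 0 < Real.log X := hlx.trans_le (Real.log_le_log hx0 hX)
  rw [div_le_div_iff₀ (by positivity) (by positivity)] at h2
  rw [div_le_div_iff₀ hlx hlX]
  linarith

/-- the optimisation -/
lemma opt {k : ℕ} (hk : 1 ≤ k) {κ ε : ℝ} (hκ0 : 0 ≤ κ) (hε0 : 0 < ε) (hε1 : ε ≤ 1 / 2)
    (hκ : κ * (k : ℝ) ^ ((2 * k + 1 : ℝ) / (k + 1)) / (k + 1) ^ 2 ≤ (1 - ε) ^ 3)
    {l ρ y X : ℝ} (hy : 0 < y) (hl : Real.log y = l) (hεl : 3 ≤ ε * l) (hρ : 1 / 2 ≤ ρ)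
    (hX : Real.log X = Real.log k + l * (1 + 1 / k) + 1 / k + Real.log ρ - (1 - ε) / (k * ρ))
    (hX0 : 0 < X) :
    κ * (X ^ ((k : ℝ) / (k + 1)) / Real.log X) ≤ (1 - ε) * (k + 1) * (ρ * y / l) := by
  have hkR : (1 : ℝ) ≤ k := by exact_mod_cast hk
  have hk0 : (0 : ℝ) < k := by linarith
  have hρ0 : 0 < ρ := by linarith
  have hl0 : 0 < l := by nlinarith
  have h1ε : 0 < 1 - ε := by linarith
  have hlk : 0 ≤ Real.log k := Real.log_natCast_nonneg k
  have hlρ : -1 ≤ Real.log ρ := by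
    have := Real.one_sub_inv_le_log_of_pos hρ0
    have h2 : ρ⁻¹ ≤ 2 := by rw [inv_le_comm₀ hρ0 (by norm_num)]; linarith
    linarith
  have hinvρ : (1 - ε) / (k * ρ) ≤ 2 := by
    rw [div_le_iff₀ (by positivity)]
    nlinarith
  -- lower bound for `log X`
  have hlogX : (1 - ε) * (l * (1 + 1 / k)) ≤ Real.log X := by
    rw [hX]
    have h1 : 0 ≤ 1 / (k : ℝ) := by positivity
    have h2 : ε * l ≤ ε * (l * (1 + 1 / k)) := by
      refine mul_le_mul_of_nonneg_left ?_ hε0.le
      nlinarith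
    linarith
  have hpos : 0 < (1 - ε) * (l * (1 + 1 / k)) := by positivity
  have hlogX0 : 0 < Real.log X := hpos.trans_le hlogX
  -- the power
  set E : ℝ := (1 + k * Real.log ρ - (1 - ε) / ρ) / (k + 1) with hE
  have hXa : X ^ ((k : ℝ) / (k + 1)) = (k : ℝ) ^ ((k : ℝ) / (k + 1)) * y * Real.exp E := by
    rw [Real.rpow_def_of_pos hX0, hX, Real.rpow_def_of_pos hk0]
    have e1 : y = Real.exp l := by rw [← hl, Real.exp_log hy]
    rw [e1, ← Real.exp_add, ← Real.exp_add]
    congr 1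
    rw [hE]
    field_simp
    ring
  have hElog : E ≤ Real.log ρ - Real.log (1 - ε) := by
    have h1 : Real.log ((1 - ε) / ρ) ≤ (1 - ε) / ρ - 1 := Real.log_le_sub_one_of_pos (by positivity)
    rw [Real.log_div h1ε.ne' hρ0.ne'] at h1
    have h2 : Real.log (1 - ε) ≤ 0 := Real.log_nonpos h1ε.le (by linarith)
    rw [hE, div_le_iff₀ (by positivity)]
    nlinarith
  have hexpE : Real.exp E ≤ ρ / (1 - ε) := by
    refine (Real.exp_le_exp.mpr hElog).trans (le_of_eq ?_)
    rw [Real.exp_sub, Real.exp_log hρ0, Real.exp_log h1ε]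
  have hkk : (k : ℝ) ^ ((2 * k + 1 : ℝ) / (k + 1)) = (k : ℝ) ^ ((k : ℝ) / (k + 1)) * k := by
    have : ((2 * k + 1 : ℝ) / (k + 1)) = (k : ℝ) / (k + 1) + 1 := by field_simp; ring
    rw [this, Real.rpow_add hk0, Real.rpow_one]
  rw [hkk] at hκ
  set q : ℝ := (k : ℝ) ^ ((k : ℝ) / (k + 1)) with hq
  have hq0 : 0 < q := Real.rpow_pos_of_pos hk0 _
  have hκ' : κ * (q * k) ≤ (1 - ε) ^ 3 * (k + 1) ^ 2 := by
    rwa [div_le_iff₀ (by positivity)] at hκ
  rw [hXa]
  calc κ * (q * y * Real.exp E / Real.log X)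
      ≤ κ * (q * y * (ρ / (1 - ε)) / ((1 - ε) * (l * (1 + 1 / k)))) := by
        refine mul_le_mul_of_nonneg_left ?_ hκ0
        refine div_le_div₀ (by positivity) ?_ hpos hlogX
        exact mul_le_mul_of_nonneg_left hexpE (by positivity)
    _ = (κ * (q * k)) * (y * ρ / l) / ((1 - ε) ^ 2 * (k + 1)) := by
        field_simp
    _ ≤ ((1 - ε) ^ 3 * (k + 1) ^ 2) * (y * ρ / l) / ((1 - ε) ^ 2 * (k + 1)) := by
        refine div_le_div_of_nonneg_right ?_ (by positivity)
        exact mul_le_mul_of_nonneg_right hκ' (by positivity)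
    _ = (1 - ε) * (k + 1) * (ρ * y / l) := by
        field_simp

theorem main_num {k : ℕ} (hk : 1 ≤ k) {κ : ℝ} (hκ0 : 0 ≤ κ)
    (hκ : κ * (k : ℝ) ^ ((2 * k + 1 : ℝ) / (k + 1)) / (k + 1) ^ 2 < 1) (D : ℕ) (B : ℝ) :
    ∃ (y t : ℕ) (L : ℝ) (A : Finset ℕ), 2 ≤ y ∧
      (∀ n ∈ A, n ≠ 0 ∧ n.primeFactors ⊆ (primesLE y).erase 2 ∧ (n : ℝ) ≤ Real.exp L) ∧
      (∀ a ∈ A, ∀ b ∈ A, a % 2 ^ t = b % 2 ^ t) ∧ D < A.card ∧
      ∀ h r : ℝ, 0 ≤ r → h ≤ k * L →
        r + k * (t * Real.log 2) ≤ h + ∑ p ∈ primesLE y, Real.log p →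
        B ≤ h ∧ r + κ * (h ^ ((k : ℝ) / (k + 1)) / Real.log h) ≤ h := by
  classical
  have hkR : (1 : ℝ) ≤ k := by exact_mod_cast hk
  have hk0 : (0 : ℝ) < k := by linarith
  -- choice of ε
  obtain ⟨ε, hε0, hε1, hεκ⟩ : ∃ ε : ℝ, 0 < ε ∧ ε ≤ 1 / 2 ∧
      κ * (k : ℝ) ^ ((2 * k + 1 : ℝ) / (k + 1)) / (k + 1) ^ 2 ≤ (1 - ε) ^ 3 := by
    set κ' := κ * (k : ℝ) ^ ((2 * k + 1 : ℝ) / (k + 1)) / (k + 1) ^ 2 with hκ'
    have hκ'0 : 0 ≤ κ' := by positivity
    refine ⟨(1 - κ') / 4, by linarith, by linarith, ?_⟩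
    have h1 : 1 + 3 * (-((1 - κ') / 4)) ≤ (1 - (1 - κ') / 4) ^ 3 := by
      have := one_add_mul_le_pow (a := -((1 - κ') / 4)) (by linarith) 3
      push_cast at this
      have e : 1 - (1 - κ') / 4 = 1 + -((1 - κ') / 4) := by ring
      rw [e]; exact this
    linarith
  have h1ε : 0 < 1 - ε := by linarith
  set C0 : ℝ := 6 + Real.log (D + 1) with hC0
  have hlD : 0 ≤ Real.log ((D : ℝ) + 1) := Real.log_nonneg (by linarith [Nat.cast_nonneg (α := ℝ) D])
  have hC00 : 0 < C0 := by linarith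
  obtain ⟨Y, hY⟩ := eventually_atTop.mp ((ev_primes.and
    (ev_sq (a := ε) hε0 (2 * k * C0))).and ((ev_lg (3 / ε)).and
    ((ev_lg (max B (Real.exp 2))).and (eventually_ge_atTop 1000))))
  obtain ⟨y, hyY, hgood⟩ := exists_good hε0 Y
  obtain ⟨⟨hpi, hsq⟩, hl3, hlB, hy1000⟩ := hY y hyY
  set l := Real.log (y : ℝ) with hl
  have hyR : (1000 : ℝ) ≤ y := by exact_mod_cast hy1000
  have hy0 : (0 : ℝ) < y := by linarith
  have hεl : 3 ≤ ε * l := by rw [div_le_iff₀ hε0] at hl3; linarith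
  have hl6 : 6 ≤ l := by nlinarith
  have hl0 : 0 < l := by linarith
  set π' : ℝ := (Nat.primeCounting y : ℝ) with hπ
  have hπ2 : (y : ℝ) / 2 ≤ π' * l := by
    rw [div_le_iff₀ (by positivity)] at hpi
    linarith
  have hπ0 : 0 < π' := by
    by_contra h
    push Not at h
    nlinarith
  have hπy : π' ≤ y := by
    rw [hπ, ← Nat.primesLE_card_eq_primeCounting]
    have h1 : (primesLE y).card ≤ (Finset.Icc 1 y).card := by
      refine card_le_card fun p hp => ?_
      rw [mem_primesLE] at hp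
      exact Finset.mem_Icc.mpr ⟨hp.2.one_le, hp.1⟩
    rw [Nat.card_Icc] at h1
    exact_mod_cast (by omega : (primesLE y).card ≤ y)
  -- `C0 l ≤ ε π'`
  have hEπ : k * C0 * l ≤ ε * π' := by
    have h1 : 2 * k * C0 * l ^ 2 ≤ 2 * (ε * (π' * l)) := by
      refine hsq.trans ?_
      nlinarith
    have h2 : (k * C0 * l) * l ≤ (ε * π') * l := by nlinarith
    exact le_of_mul_le_mul_right h2 hl0
  set ρ : ℝ := π' * l / y with hρ
  have hρ2 : 1 / 2 ≤ ρ := by
    rw [hρ, le_div_iff₀ hy0]; linarith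
  have hρ0 : 0 < ρ := by linarith
  have hρy : ρ * y / l = π' := by rw [hρ]; field_simp
  have hlπ : 0 ≤ Real.log π' := by
    rw [hπ]; exact Real.log_natCast_nonneg _
  have hlπl : Real.log π' ≤ l := Real.log_le_log hπ0 hπy
  -- parameters
  set q : ℝ := (l - (1 - ε) / ρ + k + 1) / k with hq
  have hρinv : (1 - ε) / ρ ≤ 2 := by
    rw [div_le_iff₀ hρ0]; nlinarith
  have hρinv0 : 0 < (1 - ε) / ρ := by positivity
  have hq0 : 0 < q := by
    rw [hq]; apply div_pos _ hk0; linarith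
  have hqle : q ≤ l + 2 := by
    rw [hq, div_le_iff₀ hk0]; nlinarith
  have hkq : k * q = l - (1 - ε) / ρ + k + 1 := by rw [hq]; field_simp
  set L : ℝ := Real.exp (q + Real.log l + Real.log π' - 1) with hL
  have hL0 : 0 < L := Real.exp_pos _
  have hlogL : Real.log L = q + Real.log l + Real.log π' - 1 := by rw [hL, Real.log_exp]
  set P : Finset ℕ := (primesLE y).erase 2 with hP
  have h2P : 2 ∈ primesLE y := mem_primesLE.mpr ⟨by omega, Nat.prime_two⟩
  have hPcard : (P.card : ℝ) = π' - 1 := by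
    rw [hP, card_erase_of_mem h2P, Nat.primesLE_card_eq_primeCounting, Nat.cast_sub]
    · rw [hπ]; norm_num
    · rw [← Nat.primesLE_card_eq_primeCounting]
      exact card_pos.mpr ⟨2, h2P⟩
  have hPcard1 : 1 ≤ P.card := by
    have h3 : 3 ∈ P := by
      rw [hP, mem_erase]
      exact ⟨by norm_num, mem_primesLE.mpr ⟨by omega, Nat.prime_three⟩⟩
    exact card_pos.mpr ⟨3, h3⟩
  obtain ⟨S, hS, hScard⟩ := smooth_card P
    (fun p hp => prime_of_mem_primesLE (mem_of_mem_erase hp)) (Y := (y : ℝ)) (by linarith)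
    (fun p hp => by
      have := (mem_primesLE.mp (mem_of_mem_erase hp)).1
      exact_mod_cast this) (L := L) hL0.le
  -- log of the number of elements
  have hlogS : (π' - 1) * q - Real.log π' - 1 ≤ Real.log S.card := by
    have hfac0 : (0 : ℝ) < (P.card)! := by exact_mod_cast Nat.factorial_pos _
    have hLl : 0 < L / Real.log (y : ℝ) := by rw [← hl]; positivity
    have h1 := Real.log_le_log (by positivity) hScard
    rw [Real.log_div (by positivity) hfac0.ne', Real.log_pow, Real.log_div hL0.ne' (by rw [← hl]; exact hl0.ne'),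
      ← hl, hlogL, hPcard] at h1
    have h2 := log_factorial_le P.card hPcard1
    rw [hPcard] at h2
    have h3 : Real.log (π' - 1) ≤ Real.log π' := by
      refine Real.log_le_log ?_ (by linarith)
      rw [← hPcard]; exact_mod_cast hPcard1
    have h4 : (0 : ℝ) ≤ π' - 1 := by rw [← hPcard]; positivity
    have h5 : (π' - 1) * Real.log (π' - 1) ≤ (π' - 1) * Real.log π' :=
      mul_le_mul_of_nonneg_left h3 h4
    nlinarith
  -- the key inequality
  set θ : ℝ := ∑ p ∈ primesLE y, Real.log p with hθ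
  have hθ0 : 0 ≤ θ := sum_nonneg fun p _ => Real.log_natCast_nonneg p
  have hII := II_eq' (m := y) (by omega)
  rw [hII, ← hl, ← hθ, ← hπ] at hgood
  have hρπ : (1 - ε) / ρ * π' = (1 - ε) * y / l := by
    rw [hρ]; field_simp
  have hl2 : Real.log 2 ≤ 1 := by
    have := Real.log_two_lt_d9; linarith
  have hkey : θ + (1 - ε) * (k + 1) * π' ≤
      k * (Real.log S.card - Real.log 2 - Real.log (D + 1)) := by
    have h1 : k * ((π' - 1) * q - Real.log π' - 1) ≤ k * Real.log S.card :=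
      mul_le_mul_of_nonneg_left hlogS hk0.le
    have h2 : k * (q + Real.log π' + 1 + Real.log 2 + Real.log (D + 1)) ≤ k * C0 * l := by
      rw [mul_assoc]
      refine mul_le_mul_of_nonneg_left ?_ hk0.le
      rw [hC0]
      nlinarith
    have h3 : k * ((π' - 1) * q - Real.log π' - 1) = k * q * π' - k * (q + Real.log π' + 1) := by
      ring
    have h4 : k * q * π' = π' * l - (1 - ε) * y / l + (k + 1) * π' := by
      rw [hkq, ← hρπ]; ring
    have h5 : ε * π' ≤ ε * (k + 1) * π' := by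
      have : 0 ≤ ε * π' := by positivity
      nlinarith
    nlinarith
  have hkey0 : 0 < Real.log S.card - Real.log 2 - Real.log (D + 1) := by
    have h1 : 0 < θ + (1 - ε) * (k + 1) * π' := by positivity
    by_contra h
    push Not at h
    nlinarith
  have hlog2 : 0 < Real.log 2 := Real.log_pos one_lt_two
  set t : ℕ := ⌊(Real.log S.card - Real.log (D + 1)) / Real.log 2⌋₊ with ht
  have ht1 : (t : ℝ) * Real.log 2 ≤ Real.log S.card - Real.log (D + 1) := by
    have := Nat.floor_le (show 0 ≤ (Real.log S.card - Real.log (D + 1)) / Real.log 2 from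
      div_nonneg (by linarith) hlog2.le)
    rwa [le_div_iff₀ hlog2] at this
  have ht2 : Real.log S.card - Real.log (D + 1) - Real.log 2 ≤ (t : ℝ) * Real.log 2 := by
    have := (Nat.lt_floor_add_one ((Real.log S.card - Real.log (D + 1)) / Real.log 2)).le
    rw [div_le_iff₀ hlog2, ← ht] at this
    linarith
  have hScard0 : (0 : ℝ) < S.card := by
    by_contra h
    have : (S.card : ℝ) = 0 := le_antisymm (not_lt.mp h) (Nat.cast_nonneg _)
    rw [this, Real.log_zero] at hkey0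
    linarith
  have hpig : 2 ^ t * D < S.card := by
    have h1 : (2 : ℝ) ^ t * (D + 1) ≤ S.card := by
      rw [← Real.log_le_log_iff (by positivity) hScard0, Real.log_mul (by positivity) (by positivity),
        Real.log_pow]
      linarith
    have h2 : 2 ^ t * (D + 1) ≤ S.card := by exact_mod_cast h1
    have h3 : 0 < 2 ^ t := by positivity
    nlinarith
  obtain ⟨A, hAS, hAD, hAmod⟩ := exists_class S D t hpig
  refine ⟨y, t, L, A, by omega, fun n hn => hS n (hAS hn), hAmod, hAD, fun h r hr hhL hgain => ?_⟩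
  have hG : (1 - ε) * (k + 1) * π' ≤ k * (t * Real.log 2) - θ := by
    have := mul_le_mul_of_nonneg_left ht2 hk0.le
    nlinarith
  have hh1 : r + (1 - ε) * (k + 1) * π' ≤ h := by linarith
  have hlh : l ≤ h := by
    have h1 : l ≤ (1 - ε) * (k + 1) * π' := by
      have h2 : k * C0 * l ≤ (1 - ε) * π' := by nlinarith
      have h3 : l ≤ k * C0 * l := by
        have : 1 ≤ k * C0 := by nlinarith
        nlinarith
      have h4 : (1 - ε) * π' ≤ (1 - ε) * (k + 1) * π' := by
        have : 0 ≤ (1 - ε) * π' := by positivity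
        nlinarith
      linarith
    linarith
  refine ⟨(le_max_left _ _).trans (hlB.trans hlh), ?_⟩
  have hhe : Real.exp 2 ≤ h := (le_max_right _ _).trans (hlB.trans hlh)
  have hα : (1 / 2 : ℝ) ≤ (k : ℝ) / (k + 1) := by
    rw [div_le_div_iff₀ (by norm_num) (by positivity)]; linarith
  have hmono := rpow_div_log hα hhe hhL
  have hX0 : 0 < k * L := by positivity
  have hlogX : Real.log (k * L) = Real.log k + l * (1 + 1 / k) + 1 / k + Real.log ρ -
      (1 - ε) / (k * ρ) := by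
    rw [Real.log_mul hk0.ne' hL0.ne', hlogL]
    have e1 : Real.log ρ = Real.log π' + Real.log l - l := by
      rw [hρ, Real.log_div (by positivity) hy0.ne', Real.log_mul hπ0.ne' hl0.ne']
    rw [e1, hq]
    field_simp
    ring
  have hopt := opt hk hκ0 hε0 hε1 hεκ hy0 hl.symm hεl hρ2 hlogX hX0
  rw [hρy] at hopt
  have := mul_le_mul_of_nonneg_left hmono hκ0
  linarith

end Pool.Agent.H951R3.U
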