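import Pool.Agent.H951R3.U.U1

set_option autoImplicit false

/-!
Tuples of rational numbers with the numerators, denominators and differences of small joint
radical.
-/

namespace Pool.Agent.H951R3.U

open Finset Nat

/-- one fibre -/
lemma one_fibre {y t : ℕ} {L : ℝ} (hy : 2 ≤ y) {s c : ℕ} (hs0 : s ≠ 0) (hsc : s < c)
    (hs : s.primeFactors ⊆ (primesLE y).erase 2) (hc : c.primeFactors ⊆ (primesLE y).erase 2)
    (hmod : c % 2 ^ t = s % 2 ^ t) (hcL : (c : ℝ) ≤ Real.exp L) :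
    ∃ r : ℕ, r ≠ 0 ∧ 0 < ((s : ℚ) / c) ∧ ((s : ℚ) / c) < 1 ∧
      Real.log (max ((s : ℚ) / c).num.natAbs ((s : ℚ) / c).den : ℕ) ≤ L ∧
      (∀ p : ℕ, p.Prime → (p ∣ ((s : ℚ) / c).num.natAbs ∨ p ∣ ((s : ℚ) / c).den ∨
        p ∣ ((((s : ℚ) / c).den : ℤ) - ((s : ℚ) / c).num).natAbs) → p ∈ primesLE y ∨ p ∣ r) ∧
      Real.log r + t * Real.log 2 ≤
        Real.log (max ((s : ℚ) / c).num.natAbs ((s : ℚ) / c).den : ℕ) := by
  have hc0 : c ≠ 0 := by omega
  obtain ⟨g, a, b, hg, hab, hsa, hcb⟩ := Nat.exists_coprime' (m := s) (n := c)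
    (Nat.gcd_pos_of_pos_left _ (Nat.pos_of_ne_zero hs0))
  have hg0 : (g : ℚ) ≠ 0 := by exact_mod_cast hg.ne'
  have hb0 : b ≠ 0 := by rintro rfl; simp at hcb; exact hc0 hcb
  have ha0 : a ≠ 0 := by rintro rfl; simp at hsa; exact hs0 hsa
  have hlt : a < b := by
    rw [hsa, hcb] at hsc
    exact lt_of_mul_lt_mul_right hsc (Nat.zero_le g)
  have hq : (s : ℚ) / c = ((a : ℤ) : ℚ) / ((b : ℤ) : ℚ) := by
    rw [hsa, hcb]
    push_cast
    rw [mul_div_mul_right _ _ hg0]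
  have hnum : ((s : ℚ) / c).num = a := by
    rw [hq]
    exact Rat.num_div_eq_of_coprime (by exact_mod_cast Nat.pos_of_ne_zero hb0) (by simpa using hab)
  have hden : ((((s : ℚ) / c).den : ℕ) : ℤ) = b := by
    rw [hq]
    exact Rat.den_div_eq_of_coprime (by exact_mod_cast Nat.pos_of_ne_zero hb0) (by simpa using hab)
  have hden' : ((s : ℚ) / c).den = b := by exact_mod_cast hden
  have hmax : max ((s : ℚ) / c).num.natAbs ((s : ℚ) / c).den = b := by
    rw [hnum, hden', Int.natAbs_natCast]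
    exact max_eq_right hlt.le
  have hdiff : ((((s : ℚ) / c).den : ℤ) - ((s : ℚ) / c).num).natAbs = b - a := by
    rw [hnum, hden', ← Nat.cast_sub hlt.le, Int.natAbs_natCast]
  have hsp : ∀ p : ℕ, p.Prime → p ∣ s → p ∈ (primesLE y).erase 2 := fun p hp h =>
    hs (Nat.mem_primeFactors.mpr ⟨hp, h, hs0⟩)
  have hcp : ∀ p : ℕ, p.Prime → p ∣ c → p ∈ (primesLE y).erase 2 := fun p hp h =>
    hc (Nat.mem_primeFactors.mpr ⟨hp, h, hc0⟩)
  -- `2 ^ t` divides `b - a`
  have h2 : 2 ^ t ∣ b - a := by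
    have h3 : 2 ^ t ∣ c - s := Nat.dvd_of_mod_eq_zero (Nat.sub_mod_eq_zero_of_mod_eq hmod)
    have h4 : c - s = (b - a) * g := by rw [hsa, hcb, Nat.sub_mul]
    rw [h4] at h3
    have h5 : Nat.Coprime (2 ^ t) g := by
      refine Nat.Coprime.pow_left _ ?_
      rw [Nat.Prime.coprime_iff_not_dvd Nat.prime_two]
      intro h
      refine (ne_of_mem_erase (hcp 2 Nat.prime_two ?_)) rfl
      rw [hcb]
      exact Dvd.dvd.mul_left h b
    exact h5.dvd_of_dvd_mul_right h3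
  obtain ⟨r, hr⟩ := h2
  have hr0 : r ≠ 0 := by
    rintro rfl
    rw [mul_zero] at hr
    omega
  have hsQ : (0 : ℚ) < s := by exact_mod_cast Nat.pos_of_ne_zero hs0
  have hcQ : (0 : ℚ) < c := by exact_mod_cast Nat.pos_of_ne_zero hc0
  refine ⟨r, hr0, by positivity, ?_, ?_, ?_, ?_⟩
  · rw [div_lt_one hcQ]
    exact_mod_cast hsc
  · rw [hmax]
    have hbR : (0 : ℝ) < b := by exact_mod_cast Nat.pos_of_ne_zero hb0
    rw [Real.log_le_iff_le_exp hbR]
    refine le_trans ?_ hcL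
    have : b ≤ c := by
      rw [hcb]
      exact Nat.le_mul_of_pos_right b hg
    exact_mod_cast this
  · intro p hp h
    rcases h with h | h | h
    · rw [hnum, Int.natAbs_natCast] at h
      exact Or.inl (mem_of_mem_erase (hsp p hp (by rw [hsa]; exact Dvd.dvd.mul_right h g)))
    · rw [hden'] at h
      exact Or.inl (mem_of_mem_erase (hcp p hp (by rw [hcb]; exact Dvd.dvd.mul_right h g)))
    · rw [hdiff, hr] at h
      rcases (hp.dvd_mul.mp h) with h1 | h1
      · have h3 := hp.dvd_of_dvd_pow h1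
        have h4 : p ≤ 2 := Nat.le_of_dvd (by norm_num) h3
        exact Or.inl (mem_primesLE.mpr ⟨by omega, hp⟩)
      · exact Or.inr h1
  · rw [hmax]
    have hrR : (r : ℝ) ≠ 0 := by exact_mod_cast hr0
    have h1 : Real.log (((2 ^ t * r : ℕ) : ℝ)) ≤ Real.log b := by
      refine Real.log_le_log ?_ ?_
      · exact_mod_cast Nat.pos_of_ne_zero (mul_ne_zero (by positivity) hr0)
      · rw [← hr]
        exact_mod_cast Nat.sub_le b a
    push_cast at h1
    rw [Real.log_mul (by positivity) hrR, Real.log_pow] at h1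
    linarith

lemma main_fib {k : ℕ} (Q : MvPolynomial (Fin k) ℂ) (hQ : Q ≠ 0) :
    ∃ D : ℕ, ∀ (y t : ℕ) (L : ℝ) (A : Finset ℕ), 2 ≤ y →
      (∀ n ∈ A, n ≠ 0 ∧ n.primeFactors ⊆ (primesLE y).erase 2 ∧ (n : ℝ) ≤ Real.exp L) →
      (∀ a ∈ A, ∀ b ∈ A, a % 2 ^ t = b % 2 ^ t) → D < A.card →
      ∃ (x : Fin k → ℚ) (r : Fin k → ℕ), (∀ i, r i ≠ 0) ∧ (∀ i, 0 < x i) ∧ (∀ i, x i < 1) ∧
        MvPolynomial.eval (fun i => (x i : ℂ)) Q ≠ 0 ∧
        (∀ i, Real.log (max (x i).num.natAbs (x i).den : ℕ) ≤ L) ∧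
        (∀ i, ∀ p : ℕ, p.Prime → (p ∣ (x i).num.natAbs ∨ p ∣ (x i).den ∨
          p ∣ (((x i).den : ℤ) - (x i).num).natAbs) → p ∈ primesLE y ∨ p ∣ r i) ∧
        (∀ i, Real.log (r i) + t * Real.log 2 ≤
          Real.log (max (x i).num.natAbs (x i).den : ℕ)) := by
  classical
  refine ⟨(univ.sup fun i : Fin k => Q.degreeOf i) + 1, fun y t L A hy hA hmod hcard => ?_⟩
  have hne : A.Nonempty := card_pos.mp (by omega)
  set s0 := A.min' hne with hs0
  have hs0A : s0 ∈ A := A.min'_mem hne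
  have hs00 : s0 ≠ 0 := (hA s0 hs0A).1
  have hs0C : (s0 : ℂ) ≠ 0 := by exact_mod_cast hs00
  set T : Finset ℂ := (A.erase s0).image (fun c : ℕ => (s0 : ℂ) / c) with hT
  have hTcard : (univ.sup fun i : Fin k => Q.degreeOf i) + 1 ≤ T.card := by
    rw [hT, Finset.card_image_of_injOn, card_erase_of_mem hs0A]
    · omega
    · intro c hc c' hc' h
      have e1 : (c : ℂ) ≠ 0 := by exact_mod_cast (hA c (mem_of_mem_erase hc)).1
      have e2 : (c' : ℂ) ≠ 0 := by exact_mod_cast (hA c' (mem_of_mem_erase hc')).1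
      simp only at h
      rw [div_eq_div_iff e1 e2] at h
      have := mul_left_cancel₀ hs0C h
      exact_mod_cast this.symm
  have hex : ∃ ξ : Fin k → ℂ, (∀ i, ξ i ∈ T) ∧ MvPolynomial.eval ξ Q ≠ 0 := by
    by_contra hcon
    push Not at hcon
    apply hQ
    refine MvPolynomial.eq_zero_of_eval_zero_at_prod_finset Q (fun _ => T) (fun i => ?_) hcon
    have : Q.degreeOf i ≤ univ.sup fun i : Fin k => Q.degreeOf i :=
      Finset.le_sup (f := fun i : Fin k => Q.degreeOf i) (mem_univ i)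
    omega
  obtain ⟨ξ, hξT, hξ⟩ := hex
  have hch : ∀ i, ∃ c ∈ A.erase s0, (s0 : ℂ) / c = ξ i := fun i => mem_image.mp (hξT i)
  choose c hcA hcξ using hch
  have hcA' : ∀ i, c i ∈ A := fun i => mem_of_mem_erase (hcA i)
  have hclt : ∀ i, s0 < c i := fun i =>
    lt_of_le_of_ne (A.min'_le _ (hcA' i)) (ne_of_mem_erase (hcA i)).symm
  have hone := fun i => one_fibre (L := L) hy hs00 (hclt i) (hA s0 hs0A).2.1 (hA _ (hcA' i)).2.1
    (hmod _ (hcA' i) _ hs0A) (hA _ (hcA' i)).2.2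
  choose r hr0 hpos hlt1 hL hprime hgain using hone
  refine ⟨fun i => (s0 : ℚ) / c i, r, hr0, hpos, hlt1, ?_, hL, hprime, hgain⟩
  have : (fun i => (((s0 : ℚ) / c i : ℚ) : ℂ)) = ξ := by
    funext i
    rw [← hcξ i]
    push_cast
    rfl
  rw [this]
  exact hξ

/-- the sum of the logarithms of the primes dividing a number -/
lemma sum_log_primeFactors_le {n : ℕ} (hn : n ≠ 0) :
    ∑ p ∈ n.primeFactors, Real.log p ≤ Real.log n := by
  rw [← Real.log_prod (fun p hp => by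
    exact_mod_cast (Nat.prime_of_mem_primeFactors hp).ne_zero)]
  refine Real.log_le_log (prod_pos fun p hp => by
    exact_mod_cast (Nat.prime_of_mem_primeFactors hp).pos) ?_
  have h1 := Nat.le_of_dvd (Nat.pos_of_ne_zero hn) (Nat.prod_primeFactors_dvd n)
  have h2 : ((∏ p ∈ n.primeFactors, p : ℕ) : ℝ) ≤ n := by exact_mod_cast h1
  push_cast at h2
  exact h2

/-- `x ^ a / log x` is eventually large -/
lemma rpow_div_log_large {a : ℝ} (ha : 0 < a) (M : ℝ) :
    ∃ B : ℝ, ∀ x : ℝ, B ≤ x → M ≤ x ^ a / Real.log x := by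
  have h1 := (isLittleO_log_rpow_atTop ha).bound (c := 1 / (|M| + 1)) (by positivity)
  obtain ⟨B, hB⟩ := Filter.eventually_atTop.mp h1
  refine ⟨max B (Real.exp 1), fun x hx => ?_⟩
  have hx1 := hB x ((le_max_left _ _).trans hx)
  have hxe : Real.exp 1 ≤ x := (le_max_right _ _).trans hx
  have hx0 : 0 < x := lt_of_lt_of_le (Real.exp_pos _) hxe
  have hl1 : 1 ≤ Real.log x := by
    rw [Real.le_log_iff_exp_le hx0]; exact hxe
  have hxa : 0 ≤ x ^ a := Real.rpow_nonneg hx0.le _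
  rw [Real.norm_eq_abs, Real.norm_eq_abs, abs_of_nonneg (by linarith), abs_of_nonneg hxa,
    div_mul_eq_mul_div, one_mul, le_div_iff₀ (by positivity)] at hx1
  rw [le_div_iff₀ (by linarith)]
  have := le_abs_self M
  nlinarith

end Pool.Agent.H951R3.U
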